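import Mathlib
import Pool.Agent.Helper18.UW.GameV
import Pool.Agent.Helper43.UN.GoalsG

/-! Project UN: the game theorem for the virtual play (packet GameVn). -/

set_option autoImplicit false

namespace Pool.Agent.Helper96.UN

open Finset
open Pool.Agent.Lead.Sh
open Pool.Agent.Helper43.Hw (T na va lz Play aa ac sc oo sk U Dd Sd Pn nx bb np)
open Pool.Agent.Helper43.Gm (Pri)
open Pool.Agent.Helper18.EW (Gr Ex Pau GoalE12)
open Pool.Agent.Helper18.UW (Par4 UGrp uV uO uK uD uS uN UPlay UPre uz uo Vh mu OkU par4_facts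
  GoalGE4 GoalUG GoalE14v GoalXf)
open Pool.Agent.Helper43.UN

theorem goalGameVn (hH1 : Pool.Agent.Helper43.Hw.GoalH1) (hE8a : GoalE8an) (hE8b : GoalE8bn)
    (hGE : GoalGE4) (hUG : GoalUG) (hE12 : GoalE12) (hE13 : GoalE13n) (hE14 : GoalE14v)
    (hXf : GoalXf) (hZ15 : GoalZ15n) : GoalGameVn := by
  intro μ δ R A N K b l Lg q v τ w βp βm W ms ℓ κ2 x2 vp hms hvw h4w hw1 hw3 hw4
  have par := vp.par
  obtain ⟨hμ, hbl, hKl, hb, hl75, hbK⟩ := par4_facts par
  have hl := par.l1
  have hR := par.R1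
  have hK := par.hK
  have hμ1 : 1 ≤ μ := le_trans (by norm_num) hμ
  have hvb := vp.vb
  have hvc := vp.vc
  have hd1 := vp.d1
  have hv1 := vp.v1
  have ht1 := vp.t1
  have ht2 := vp.t2
  have hblv : 2 ^ 42 * l ≤ b * l := by gcongr
  have hvl : 2 ^ 30 * l ≤ 2 ^ q * v := by omega
  have hvμ : 2 ^ 43 * (2 ^ q * v) ≤ μ := by omega
  have hδ : 2 ^ 43 * (20 * δ) ≤ μ := by omega
  -- the bound for W
  have hWb : 2 ^ 10 * l * |W| ≤ (μ : ℤ) ^ 3 := by
    have h1 : w ^ 2 * (b * l + w) ≤ μ ^ 3 := by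
      have hw' : w ≤ μ := by omega
      have h2 : b * l + w ≤ μ := by omega
      calc w ^ 2 * (b * l + w) ≤ μ ^ 2 * μ := by gcongr
        _ = μ ^ 3 := by ring
    have h2 : ((w ^ 2 * (b * l + w) : ℕ) : ℤ) ≤ (μ : ℤ) ^ 3 := by exact_mod_cast h1
    have h3 : (0 : ℤ) ≤ l * |W| := by positivity
    nlinarith
  -- the sum of the T (ms i)
  have hS3 : (b : ℤ) * μ ^ 2 ≤ 3 * ∑ i ∈ range K, (T (ms i) : ℤ) := by
    have h1 : ∀ i ∈ range K, μ ^ 2 ≤ 3 * T (ms i) := by
      intro i hi
      have h2 := Pool.Agent.Helper43.Hw.two_T (ms i)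
      have h3 := hms i (mem_range.1 hi)
      have h4 : 99 * μ ≤ 100 * ms i := by omega
      nlinarith
    have h2 : ∑ _i ∈ range K, μ ^ 2 ≤ ∑ i ∈ range K, 3 * T (ms i) := sum_le_sum h1
    rw [sum_const, card_range, smul_eq_mul, ← mul_sum] at h2
    have h3 : b * μ ^ 2 ≤ 3 * ∑ i ∈ range K, T (ms i) := le_trans (by gcongr) h2
    exact_mod_cast h3
  obtain ⟨a1, a2⟩ := hE8a μ δ R A N K b l Lg q v τ βp βm _ W ℓ κ2 x2 vp
  obtain ⟨b1, b2, b3⟩ := hE8b μ δ R A N K b l Lg q v τ βp βm _ W ℓ κ2 x2 vp hS3 hWb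
  set J := R - 1 - μ with hJ
  set S := J + μ / 4000 with hS
  have hτ1 : 1 ≤ τ := by omega
  have hτJ : τ < J := by omega
  have h4000 : 2 ^ 60 ≤ μ / 4000 := by omega
  have hlzle : ∀ t, τ ≤ t → t ≤ S → lz μ R N κ2 x2 t ≤ ℓ t := by
    intro t h1 h2
    by_cases h3 : t ≤ J
    · exact (a1 t h1 (by omega)).1
    · exact b2 t (by omega) (by omega)
  set Γ : ℕ → ℕ := fun t => ℓ t - lz μ R N κ2 x2 t with hΓ
  have hinc : ∀ t, τ ≤ t → t < S → μ + 16 * l * Γ t ≤ 16 * l * Γ (t + 1) := by
    intro t h1 h2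
    by_cases h3 : t + 1 ≤ J
    · exact a2 t h1 (by omega)
    · have e1 := b1 t (by omega) (by omega)
      have e2 := hlzle t h1 (by omega)
      have e3 := hlzle (t + 1) (by omega) (by omega)
      obtain ⟨g1, hg1⟩ := Nat.exists_eq_add_of_le e2
      obtain ⟨g2, hg2⟩ := Nat.exists_eq_add_of_le e3
      have e4 : Γ t = g1 := by simp only [hΓ]; omega
      have e5 : Γ (t + 1) = g2 := by simp only [hΓ]; omega
      rw [e4, e5]
      rw [hg1, hg2] at e1
      nlinarith
  have hK4 : ∀ t, τ ≤ t → t < S → Γ t + 4 * K ≤ Γ (t + 1) := by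
    intro t h1 h2
    have e1 := hinc t h1 h2
    by_contra hcon
    push Not at hcon
    have e2 : 16 * l * Γ (t + 1) < 16 * l * (Γ t + 4 * K) :=
      (Nat.mul_lt_mul_left (by omega)).2 hcon
    have e3 : 16 * l * (Γ t + 4 * K) = 16 * l * Γ t + 64 * (K * l) := by ring
    omega
  have hsum : ∀ k, τ + k ≤ S → k * μ ≤ 16 * l * Γ (τ + k) := by
    intro k
    induction k with
    | zero => intro _; simp
    | succ k ih =>
      intro h
      have e1 := ih (by omega)
      have e2 := hinc (τ + k) (by omega) (by omega)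
      rw [← Nat.add_assoc]
      calc (k + 1) * μ = k * μ + μ := by ring
        _ ≤ μ + 16 * l * Γ (τ + k) := by omega
        _ ≤ _ := e2
  have hKS0 : K * μ ≤ Γ S := by
    have e1 := hsum (S - τ) (by omega)
    rw [show τ + (S - τ) = S by omega] at e1
    have e2 : 16 * (K * l) ≤ S - τ := by omega
    have e3 : 16 * (K * l) * μ ≤ 16 * l * Γ S := le_trans (Nat.mul_le_mul_right _ e2) e1
    have e4 : 16 * l * (K * μ) ≤ 16 * l * Γ S := by
      calc 16 * l * (K * μ) = 16 * (K * l) * μ := by ring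
        _ ≤ _ := e3
    exact Nat.le_of_mul_le_mul_left e4 (by omega)
  have hmsK : ∑ i ∈ range K, ms i ≤ K * μ := by
    have h1 : ∑ i ∈ range K, ms i ≤ ∑ _i ∈ range K, μ :=
      sum_le_sum (fun i hi => (hms i (mem_range.1 hi)).2)
    rwa [sum_const, card_range, smul_eq_mul] at h1
  have hΓJ : 4 * Γ (J + δ) ≤ b * μ := b3 (J + δ) (by omega) (by omega)
  set r : ℕ → ℕ := fun i => R - 1 - ms i - 2 ^ (q - i / b) * v with hr
  have hib : ∀ i, b ≤ i → i < K → 1 ≤ i / b ∧ i / b ≤ q ∧ i / b * b ≤ i ∧ i < (i / b + 1) * b := by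
    intro i h hi
    have hbpos : 0 < b := by omega
    have e1 : 1 ≤ i / b := (Nat.one_le_div_iff hbpos).2 h
    have e2 : i / b ≤ q := by
      have : i / b < q + 1 := by
        rw [Nat.div_lt_iff_lt_mul hbpos]
        rw [hK] at hi
        calc i < b * (q + 1) := hi
          _ = (q + 1) * b := by ring
      omega
    have e3 : i / b * b ≤ i := Nat.div_mul_le_self i b
    have e4 : i < (i / b + 1) * b := by
      have := Nat.lt_div_mul_add hbpos (a := i)
      calc i < i / b * b + b := this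
        _ = (i / b + 1) * b := by ring
    exact ⟨e1, e2, e3, e4⟩
  have hstart : ∀ i, b ≤ i → i < K → τ + 2 ≤ r i ∧ r i ≤ J + δ := by
    intro i h hi
    obtain ⟨e1, e2, e3, e4⟩ := hib i h hi
    have hm := hms i hi
    have e5 : 2 * (2 ^ (q - i / b) * v) ≤ 2 ^ q * v := by
      calc 2 * (2 ^ (q - i / b) * v) = 2 ^ (q - i / b + 1) * v := by ring
        _ ≤ 2 ^ q * v := by
            gcongr
            · norm_num
            · omega
    simp only [hr]
    omega
  obtain ⟨s, E, e, P, hJs, hsS, hlts, hKs, he1, hnd, hdr, hPS, hfirst, hbat⟩ :=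
    hGE μ b K τ (J + δ) S ms r Γ (le_trans (by norm_num) hμ) (le_trans (by norm_num) hb) hbK
      (by omega) (by omega) (fun i hi => by have := hms i hi; omega) hstart hK4
      (le_trans hmsK hKS0) hΓJ
  -- monotonicity of P
  have hPmono : ∀ t, τ ≤ t → ∀ k, t + k < s → P (t + k) ≤ P t := by
    intro t ht k
    induction k with
    | zero => intro _; simp
    | succ k ih =>
      intro h
      have := hdr (t + k) (by omega) (by omega)
      have := ih (by omega)
      rw [← Nat.add_assoc]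
      omega
  have grp : UGrp μ δ R K τ s E ms e P := by
    refine ⟨hτ1, by omega, by omega, by omega, by omega, ?_, he1, hnd, hdr, ?_⟩
    · intro i hi
      have := hms i hi
      exact ⟨this.1, this.2, by omega⟩
    · intro i hi
      have hm := hms i hi
      rcases Nat.lt_or_ge i b with h | h
      · have e1 := hfirst i h
        have e2 := hPmono (τ + 1) (by omega) (R - 1 - ms i - (τ + 1)) (by omega)
        rw [show τ + 1 + (R - 1 - ms i - (τ + 1)) = R - 1 - ms i by omega] at e2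
        exact lt_of_le_of_lt (Nat.div_le_div_right e2) e1
      · refine (hbat i h hi (R - 1 - ms i) (by omega) (by omega)).2 ?_
        simp only [hr]
        omega
  have hbat' : ∀ j, 1 ≤ j → j ≤ q → ∀ i, j * b ≤ i → i < (j + 1) * b → ∀ t, τ ≤ t → t < s →
      (P t / e i < ms i ↔ R - 1 - ms i ≤ t + 2 ^ (q - j) * v) := by
    intro j h1 h2 i h3 h4 t h5 h6
    have hbpos : 0 < b := by omega
    have e1 : i / b = j := by
      apply Nat.div_eq_of_lt_le
      · exact h3
      · exact h4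
    have e2 : b ≤ i := by
      calc b = 1 * b := by ring
        _ ≤ j * b := by gcongr
        _ ≤ i := h3
    have e3 : i < K := by
      rw [hK]
      calc i < (j + 1) * b := h4
        _ ≤ (q + 1) * b := by gcongr
        _ = b * (q + 1) := by ring
    have e4 := hbat i e2 e3 t h5 h6
    simp only [hr] at e4
    rw [e1] at e4
    rw [e4]
    omega
  obtain ⟨⟨g0, gmid, gle, gtot⟩, -⟩ := hUG μ δ R K τ s E ms e P grp
  have gΓ : ∀ z, τ ≤ z → z < s → uV R K τ s ms e P z = Γ z := by
    intro z h1 h2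
    rw [gmid z h1 h2, hPS z h1 h2]
  have hsR : s < R := by omega
  -- K μ is much smaller than A
  have hKμA : 10 * (K * μ) ≤ 9 * A := by
    have e1 : 2 ^ 33 * (K * l) * μ ≤ μ * μ := Nat.mul_le_mul_right _ hKl
    have e2 := vp.lo
    have e3 : l * (10 * (K * μ)) ≤ l * (9 * A) := by nlinarith
    exact Nat.le_of_mul_le_mul_left e3 (by omega)
  have hgl : ∀ z < R, uV R K τ s ms e P z ≤ ℓ z := by
    intro z hz
    rcases Nat.lt_or_ge z τ with h | h
    · rw [g0 z h]; omega
    · rcases Nat.lt_or_ge z s with h' | h'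
      · rw [gΓ z h h']
        exact Nat.sub_le _ _
      · have e1 := gle z hz
        have e2 := (vp.ll z h hz).1
        omega
  set L : ℕ → ℕ := fun z => ℓ z - uV R K τ s ms e P z with hL
  have hlz2 : ∀ z < s, lz μ R N κ2 x2 z = L z := by
    intro z hz
    rcases Nat.lt_or_ge z τ with h | h
    · have := vp.ex z h
      simp only [hL]
      rw [g0 z h, this]; omega
    · have e1 := hlzle z h (by omega)
      simp only [hL]
      rw [gΓ z h hz]
      simp only [hΓ]
      omega
  have hlz2s : lz μ R N κ2 x2 s ≤ L s := by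
    have e1 := hlzle s (by omega) hsS
    have e2 := gle s hsR
    have e3 : Γ s = ℓ s - lz μ R N κ2 x2 s := rfl
    simp only [hL]
    omega
  obtain ⟨κ, x, play, gr, ex, agr, hbb⟩ := hE12 μ R N τ s L κ2 x2 hμ1 (by omega) vp.play hτ1
    (by omega) (by omega) (by omega) vp.g2 (fun y h1 h2 => vp.pa y h1 h2) hlz2 hlz2s
  have ext := hE13 μ δ R A N K b l Lg q τ s E βp βm ℓ ms e P W hμ1 par grp vp.lo
    (fun y h1 h2 => (vp.ll y (by omega) h2).1)
    (fun y h1 h2 => vp.i2 y (by omega) h2) vp.tot hgl (by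
    intro t h1 h2
    rw [hPS t h1 (by omega), hPS (t + 1) (by omega) h2]
    exact hinc t h1 (by omega))
  have hpa : ∀ t, τ ≤ t → t < s → κ t = κ2 τ ∧ x t = na μ R t := by
    intro t h1 h2
    have e1 := agr t h2
    have e2 := vp.pa t h1 (by omega)
    rw [e1.1, e1.2]
    exact e2
  have hpau : Pau μ R s κ x := by
    intro t h1 h2
    have e1 := hpa t (by omega) h2
    have e2 := hpa (s - 1) (by omega) (by omega)
    exact ⟨by rw [e1.1, e2.1], e1.2⟩
  obtain ⟨hX1, hX2⟩ := hXf μ R N τ s κ2 x2 κ x hμ1 (by omega) vp.play play hτ1 (by omega)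
    (by omega) (by omega) (fun y h1 h2 => vp.pa y h1 h2) agr
  -- the number of the starts
  have hnp : ∀ X ≤ μ, l * np μ R N κ x X ≤ 160 * X + 3 * l := by
    intro X hX
    obtain ⟨f1, -⟩ := hH1 μ R N κ2 x2 hμ1 (by omega) vp.play
    have hxτ : x2 τ = 0 := by
      rw [(vp.pa τ le_rfl (by omega)).2]
      unfold na
      omega
    have haτ : aa κ2 x2 τ = κ2 τ := by
      unfold aa
      rw [hxτ]
      simp
    have haJ : aa κ2 x2 J = κ2 τ := by
      have e1 := vp.pa J (by omega) (by omega)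
      have e2 : x2 J = 0 := by
        rw [e1.2]; unfold na; omega
      unfold aa
      rw [e2, e1.1]
      simp
    have hle : np μ R N κ2 x2 X ≤ aa κ2 x2 τ - aa κ2 x2 (min (J - X) τ) := by
      rw [haτ]
      unfold np
      have hsub : (range N).filter (fun c => R - 1 - μ < ac R κ2 x2 c + X ∧
          ac R κ2 x2 c ≤ R - 1 - μ) ⊆ Ico (aa κ2 x2 (min (J - X) τ)) (κ2 τ) := by
        intro c hc
        rw [mem_filter, mem_range] at hc
        obtain ⟨hc1, hc2, hc3⟩ := hc
        rw [mem_Ico]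
        have e1 := (f1 c J (by omega)).2
        rw [haJ] at e1
        have e3 := (f1 c (min (J - X) τ) (by omega)).2
        constructor
        · rw [e3]
          have e4 : min (J - X) τ ≤ J - X := min_le_left _ _
          omega
        · by_contra h
          have := e1.1 (by omega)
          omega
      have := card_le_card hsub
      rw [Nat.card_Ico] at this
      exact this
    have hmin : min (J - X) τ ≤ τ := min_le_right _ _
    have hmin2 : τ - min (J - X) τ ≤ X := by omega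
    have e1 := vp.su (min (J - X) τ) τ (by omega) hmin le_rfl
    calc l * np μ R N κ x X ≤ l * np μ R N κ2 x2 X := by gcongr; exact hX2 X
      _ ≤ l * (aa κ2 x2 τ - aa κ2 x2 (min (J - X) τ)) := by gcongr
      _ ≤ 160 * (τ - min (J - X) τ) + 3 * l := e1
      _ ≤ 160 * X + 3 * l := by omega
  have hD : ∀ y, s ≤ y → y < R → w ≤ R - 1 - y → (R - 1 - y) ^ 2 * (b * l + (R - 1 - y)) ≤
      4096 * l * (Dd μ R κ x y + uD R K τ s ms e P y) := by
    intro y h1 h2 h3
    have e1 := hE14 μ δ R b l q v τ s E y (Dd μ R κ x y) ms e P hv1 hb hl hvb hvc hd1 ht1 ht2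
      (by rw [← hK]; exact grp) hfirst hbat' h1 h2 (by omega) (by
        intro h4
        have e2 := vp.dd y (by omega) h2 h4
        have e3 := hX1 y h1 h2
        calc (R - 1 - y) ^ 3 ≤ 8 * l * Dd μ R κ2 x2 y := e2
          _ ≤ 8 * l * Dd μ R κ x y := by gcongr)
    rw [← hK] at e1
    exact e1
  have hfin := hZ15 μ R N K b l Lg q βp βm s w W L (uO R K τ s ms e P) (uK K τ s ms e P)
    (uD R K τ s ms e P) (uS R K τ s ms e P) (uN R K τ s ms e P) κ x par vp.bm ext play gr
    (by omega) ex hbb hpau hnp (by omega) (by omega) h4w hD hw1 hw3 hw4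
  refine ⟨κ, x, e, P, s, E, play, grp, agr, ?_⟩
  rcases hfin with ⟨h1, h2⟩ | ⟨h1, h2⟩
  · left
    refine ⟨h1, fun z hz => ?_⟩
    have e1 := h2 z hz
    have e2 := hgl z hz
    simp only [hL] at e1
    omega
  · right
    refine ⟨h1, fun z hz => ?_⟩
    have e1 := h2 z hz
    have e2 := hgl z hz
    simp only [hL] at e1
    omega

end Pool.Agent.Helper96.UN
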